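import Mathlib
import Pool.Agent.Y205.TF.Red5

set_option autoImplicit false

/-!
# Poonen's strict inequality and minimal dominating sets, without a separation hypothesis

Let `F` be a finite nonempty union-closed family. A set `T` dominates `F` if for every element `x` of a
member some `t ∈ T` lies in all members containing `x`; a minimal dominating set consists of one
representative for each class of undominated elements (elements lying in the same members form a
class).

If `F` has a dominating set of at most six elements, or if every member contains at most two, or at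
least half, of the elements of some minimal dominating set `T`, then some element lies in strictly
more than half of the members, or `F` is a power set up to twins: `X ↦ X ∩ T` is a bijection of `F`
onto the power set of `T`, and every element lies in the same members as some element of `T`.
-/

namespace Pool.Agent.Results.MP_d55cb9_co.FewUndominated

open Finset

/-- `T` dominates `F`: for every element `x` of a member of `F` some `t ∈ T` lies in all members
containing `x`. -/
def Dominates {α : Type*} (T : Finset α) (F : Finset (Finset α)) : Prop :=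
  ∀ X ∈ F, ∀ x ∈ X, ∃ t ∈ T, ∀ Y ∈ F, x ∈ Y → t ∈ Y

/-- Up to elements lying in the same members, `F` is the power set of `T`: every subset of `T` is the
trace `X ∩ T` of exactly one member `X`, and every element of the universe lies in the same members
as some element of `T`. -/
def IsPowerSetUpToTwins {α : Type*} [DecidableEq α] (F : Finset (Finset α)) (T : Finset α) : Prop :=
  (∀ P ⊆ T, ∃! X, X ∈ F ∧ X ∩ T = P) ∧ ∀ x ∈ F.sup id, ∃ t ∈ T, ∀ X ∈ F, x ∈ X ↔ t ∈ X

/-- **Main result.** -/
theorem result {α : Type*} [DecidableEq α] (F : Finset (Finset α)) (hne : F.Nonempty)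
    (hU : ∀ X ∈ F, ∀ Y ∈ F, X ∪ Y ∈ F) :
    (∀ T : Finset α, Dominates T F → (∀ t ∈ T, ¬ Dominates (T.erase t) F) →
      (∀ X ∈ F, (X ∩ T).card ≤ 2 ∨ T.card ≤ 2 * (X ∩ T).card) →
      (∃ x ∈ F.sup id, F.card < 2 * (F.filter (fun X => x ∈ X)).card) ∨
        IsPowerSetUpToTwins F T) ∧
    (∀ T : Finset α, Dominates T F → T.card ≤ 6 →
      (∃ x ∈ F.sup id, F.card < 2 * (F.filter (fun X => x ∈ X)).card) ∨
        ∃ T₀ ⊆ T, IsPowerSetUpToTwins F T₀) := by
  have key : ∀ T : Finset α, Dominates T F → (∀ t ∈ T, ¬ Dominates (T.erase t) F) →
      (∀ X ∈ F, (X ∩ T).card ≤ 2 ∨ T.card ≤ 2 * (X ∩ T).card) →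
      (∃ x ∈ F.sup id, F.card < 2 * (F.filter (fun X => x ∈ X)).card) ∨
        IsPowerSetUpToTwins F T := by
    intro T hT hmin hcl
    rcases Pool.Agent.Y205.TF.poonen_min F hne hU T hT hmin hcl with h | h
    · exact Or.inl h
    · exact Or.inr (Pool.Agent.Y205.TF.twins hU hT h)
  refine ⟨key, fun T hT h6 => ?_⟩
  obtain ⟨T₀, h1, h2, h3⟩ := Pool.Agent.Y205.TF.exists_min hT
  have h4 := card_le_card h1
  rcases key T₀ h2 h3 (fun X _ => by omega) with h | h
  · exact Or.inl h
  · exact Or.inr ⟨T₀, h1, h⟩

end Pool.Agent.Results.MP_d55cb9_co.FewUndominated
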