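import Mathlib
import Pool.Agent.Y205.TF.Red4
import Pool.Agent.Y205.TF.Red5

set_option autoImplicit false

/-!
# Poonen's strict inequality for families with heavy unions, without a separation hypothesis

Let `F` be a finite nonempty union-closed family and `T` a minimal dominating set: for every element
`x` of a member some `t ∈ T` lies in all members containing `x`, and no `T \ {t}` has this property.
Let `w ≥ 0` be weights on `T` with sum `M`, such that either `M > 0` and every weight is at most `M/4`,
or all the weights are `1`. If for any two members `X`, `Y`, neither containing the other, for which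
`T \ X` and `T \ Y` both have weight more than `M/2`, the set `T \ (X ∪ Y)` has at most one element or
weight at most `M/4`, then some element lies in strictly more than half of the members, or `F` is a
power set up to twins: `X ↦ X ∩ T` is a bijection of `F` onto the power set of `T`, and every element
lies in the same members as some element of `T`.
-/

namespace Pool.Agent.Results.MP_d55cb9_co.HeavyUnions

open Finset

/-- `T` dominates `F`: for every element `x` of a member of `F` some `t ∈ T` lies in all members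
containing `x`. -/
def Dominates {α : Type*} (T : Finset α) (F : Finset (Finset α)) : Prop :=
  ∀ X ∈ F, ∀ x ∈ X, ∃ t ∈ T, ∀ Y ∈ F, x ∈ Y → t ∈ Y

/-- Up to elements lying in the same members, `F` is the power set of `T`: every subset of `T` is the
trace `X ∩ T` of exactly one member `X`, and every element of the universe lies in the same members
as some element of `T`. -/
def IsPowerSetUpToTwins {α : Type*} [DecidableEq α] (F : Finset (Finset α)) (T : Finset α) : Prop :=
  (∀ P ⊆ T, ∃! X, X ∈ F ∧ X ∩ T = P) ∧ ∀ x ∈ F.sup id, ∃ t ∈ T, ∀ X ∈ F, x ∈ X ↔ t ∈ X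

/-- **Main result.** -/
theorem result {α : Type*} [DecidableEq α] (F : Finset (Finset α)) (hne : F.Nonempty)
    (hU : ∀ X ∈ F, ∀ Y ∈ F, X ∪ Y ∈ F)
    (T : Finset α) (hT : Dominates T F) (hmin : ∀ t ∈ T, ¬ Dominates (T.erase t) F)
    (w : α → ℝ) (hw : ∀ i ∈ T, 0 ≤ w i)
    (hc : (0 < ∑ i ∈ T, w i ∧ ∀ i ∈ T, 4 * w i ≤ ∑ i ∈ T, w i) ∨ ∀ i ∈ T, w i = 1)
    (hI : ∀ X ∈ F, ∀ Y ∈ F, ¬ X ⊆ Y → ¬ Y ⊆ X →
      ∑ i ∈ T, w i < 2 * ∑ i ∈ T \ X, w i →
      ∑ i ∈ T, w i < 2 * ∑ i ∈ T \ Y, w i →
      (T \ (X ∪ Y)).card ≤ 1 ∨ 4 * ∑ i ∈ T \ (X ∪ Y), w i ≤ ∑ i ∈ T, w i) :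
    (∃ x ∈ F.sup id, F.card < 2 * (F.filter (fun X => x ∈ X)).card) ∨
      IsPowerSetUpToTwins F T := by
  rcases Pool.Agent.Y205.TF.poonen_weights F hne hU T hT hmin w hw hc hI with h | h
  · exact Or.inl h
  · exact Or.inr (Pool.Agent.Y205.TF.twins hU hT h)

end Pool.Agent.Results.MP_d55cb9_co.HeavyUnions
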