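import Mathlib
import Pool.Agent.Y418.UC2

set_option autoImplicit false

/-!
# Poonen's strengthening of the union-closed sets conjecture: popular elements

Call an element popular if it lies in more than `(3 - √5)/2 = 0.3819...` of the members. Some element
is popular in every union-closed family with a nonempty member (Alweiss, Huang, Sellke,
Chase, Lovett, Pebody, Sawin 2022). Here: more than half of the members contain a popular element,
unless the family is `{∅, S}`. So if some element lies in every member that contains a popular
element, then it lies in strictly more than half of the members, unless the family is `{∅, S}`.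

Proof. Let `X` be the set of popular elements. Choose two members `C`, `D` independently. Conditioned on
the traces of `C` and `D` on `X`, the entropy of `C ∪ D` is at least `φ (1 - β) > 1` times the
conditional entropy of a member, `β < (3 - √5)/2` being the largest frequency outside `X`, and it is
at most the expected logarithm of the number of members with the trace of `C ∪ D`. If more than half of
the members have empty trace, these two bounds contradict each other.
-/

namespace Pool.Agent.Results.MP_d55cb9_co.PopularElements

/-- Let `A` be a finite union-closed family with a nonempty member, not of the form `{∅, S}`.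
(1) There is a set `X` of elements, each of which lies in more than `(3 - √5)/2 · |A|` members, such
that strictly more than half of the members of `A` meet `X`. (2) Every element `x` that lies in all
members containing an element of frequency above `(3 - √5)/2 · |A|` lies in strictly more than half
of the members. (For a family `{∅, S}` the sets in (1) meet exactly half of the members: see (3).)
(3) Without the exclusion of the families `{∅, S}`, at least half of the members of `A` meet `X`. -/
theorem result {α : Type*} [DecidableEq α] (A : Finset (Finset α))
    (huc : ∀ S ∈ A, ∀ T ∈ A, S ∪ T ∈ A) (hne : ∃ S ∈ A, S.Nonempty) :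
    ((¬ ∃ S, A = {∅, S}) →
      (∃ X : Finset α,
        (∀ x ∈ X, (3 - Real.sqrt 5) / 2 * (A.card : ℝ) < (A.filter (fun S => x ∈ S)).card) ∧
        A.card < 2 * (A.filter (fun S => (S ∩ X).Nonempty)).card) ∧
      (∀ x : α,
        (∀ y : α, (3 - Real.sqrt 5) / 2 * (A.card : ℝ) < (A.filter (fun S => y ∈ S)).card →
          ∀ S ∈ A, y ∈ S → x ∈ S) →
        A.card < 2 * (A.filter (fun S => x ∈ S)).card)) ∧
    (∃ X : Finset α,
      (∀ x ∈ X, (3 - Real.sqrt 5) / 2 * (A.card : ℝ) < (A.filter (fun S => x ∈ S)).card) ∧
      A.card ≤ 2 * (A.filter (fun S => (S ∩ X).Nonempty)).card) := by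
  obtain ⟨X, hX, h, h'⟩ := Pool.Agent.Y418.UC2.popular A huc hne
  refine ⟨fun hS => ?_, X, hX, h⟩
  have hlt : A.card < 2 * (A.filter (fun S => (S ∩ X).Nonempty)).card :=
    lt_of_le_of_ne h fun e => hS (h' e)
  refine ⟨⟨X, hX, hlt⟩, fun x hx => ?_⟩
  refine hlt.trans_le (Nat.mul_le_mul_left 2 (Finset.card_le_card ?_))
  intro S hS
  rw [Finset.mem_filter] at hS ⊢
  obtain ⟨hS, y, hy⟩ := hS
  rw [Finset.mem_inter] at hy
  exact ⟨hS, hx y (hX y hy.2) S hS hy.1⟩

end Pool.Agent.Results.MP_d55cb9_co.PopularElements
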