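import Pool.Agent.Y396.Frankl.Final

set_option autoImplicit false

/-!
# Poonen's strengthening of the union-closed sets conjecture for the subsemigroups of a finite
semigroup

Let `S` be a finite semigroup, every group in which is solvable or has a nontrivial quotient
generated by two elements, and let `A` be the family of the subsets of `S` whose complement is
closed under the multiplication. If `A` is not the family of all subsets, then some element of `S`
lies in strictly more than half of the members of `A`, i.e. in strictly less than half of the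
subsemigroups of `S`.
-/

namespace Pool.Agent.Results.MP_d55cb9_co.SubsemigroupFamilies

universe u

/-- `G` is solvable or has a nontrivial quotient that is generated by two elements: there are a
normal subgroup `N` and elements `a, b` outside `N` such that `a`, `b` and `N` generate `G`. -/
def SolvableOrTwoGenerated (G : Type u) [Group G] : Prop :=
  Group.IsSolvable G ∨ ∃ N : Subgroup G, N.Normal ∧ ∃ a b : G, a ∉ N ∧ b ∉ N ∧
    Subgroup.closure (insert a (insert b (N : Set G))) = ⊤

theorem result (S : Type u) [Semigroup S] [Fintype S] [DecidableEq S]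
    (hG : ∀ (G : Type u) [Group G] (φ : G →ₙ* S), Function.Injective φ → SolvableOrTwoGenerated G)
    (A : Finset (Finset S))
    (hA : ∀ X : Finset S, X ∈ A ↔ ∀ a b : S, a ∉ X → b ∉ X → a * b ∉ X)
    (hpow : A ≠ Finset.univ) :
    (∀ X ∈ A, ∀ Y ∈ A, X ∪ Y ∈ A) ∧ A.sup id = Finset.univ ∧
    (∃ x : S, A.card < 2 * (A.filter fun X => x ∈ X).card) ∧
    (∃ x : S, 2 * Nat.card {H : Subsemigroup S // x ∈ H} < Nat.card (Subsemigroup S)) := by
  have hG' : Pool.Agent.Y396.Frankl.GroupCond S :=
    Pool.Agent.Y396.Frankl.groupCond_of fun G _ φ hφ => by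
      rcases hG G φ hφ with h | h
      · exact Or.inl h
      · exact Or.inr (Or.inr h)
  have hne : ∃ a b : S, a * b ≠ a ∧ a * b ≠ b := by
    by_contra hno
    push Not at hno
    apply hpow
    rw [Finset.eq_univ_iff_forall]
    intro X
    rw [hA]
    intro a b ha hb
    by_cases h : a * b = a
    · rw [h]; exact ha
    · rw [hno a b h]; exact hb
  obtain ⟨x, hx⟩ := Pool.Agent.Y396.Frankl.lattice_strict hG' hne
  have h1 := Pool.Agent.Y396.Frankl.fam_card A hA
  have h2 := Pool.Agent.Y396.Frankl.fam_card_filter A hA x
  refine ⟨Pool.Agent.Y396.Frankl.fam_union A hA, ?_, ⟨x, ?_⟩, ⟨x, hx⟩⟩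
  · have hS : Finset.univ ∈ A := by
      rw [hA]
      intro a b ha
      exact absurd (Finset.mem_univ a) ha
    exact le_antisymm (Finset.subset_univ _) (Finset.le_sup (f := id) hS)
  · rw [h1] at hx
    omega

end Pool.Agent.Results.MP_d55cb9_co.SubsemigroupFamilies
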